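import Pool.Agent.Y244.NLS.Half

set_option autoImplicit false

open Set Filter Topology MeasureTheory

namespace Pool.Agent.Results.MP_12ab79_an.AlmostEveryAmplitude

open Pool.Agent.H329R3.NLS Pool.Agent.Y244.NLS

/-- `a`, read as the family of Fourier coefficients of `u(x) = ∑ a k e^{2πikx}`, lies in `A_ν` -/
def InA (ν : ℝ) (a : ℤ → ℂ) : Prop := Summable fun k : ℤ => ‖a k‖ * ν ^ k.natAbs

/-- the norm `∑ |a k| ν^{|k|}` of `A_ν` -/
noncomputable def normA (ν : ℝ) (a : ℤ → ℂ) : ℝ := ∑' k : ℤ, ‖a k‖ * ν ^ k.natAbs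

/-- the Fourier coefficients of `u²` -/
noncomputable def sq (a : ℤ → ℂ) (k : ℤ) : ℂ := ∑' j : ℤ, a j * a (k - j)

/-- `a t k`, `t ∈ I`, are the Fourier coefficients of a solution of `-i u_t = u_xx + u²` on the
interval of time `I`: every `a t` is absolutely summable and each coefficient satisfies
`a_k' = i (-(2πk)² a_k + (u²)_k)` at every time of `I` -/
def Solves (I : Set ℝ) (a : ℝ → ℤ → ℂ) : Prop :=
  (∀ t ∈ I, InA 1 (a t)) ∧
  ∀ t ∈ I, ∀ k : ℤ, HasDerivWithinAt (fun s => a s k)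
    (Complex.I * (-((2 * Real.pi * k) ^ 2) * a t k + sq (a t) k)) I t

/-- there is a solution on the interval of time `I`, of bounded `A_ν` norm, which is equal to the
datum `a₀` at time `0` -/
def Survives (ν : ℝ) (I : Set ℝ) (a₀ : ℤ → ℂ) : Prop :=
  ∃ a : ℝ → ℤ → ℂ, a 0 = a₀ ∧ Solves I a ∧ ∃ K : ℝ, ∀ t ∈ I, InA ν (a t) ∧ normA ν (a t) ≤ K

/-- the Fourier coefficients of the real function `2 c cos(2πmx)` -/
noncomputable def cosDatum (m : ℕ) (c : ℝ) (k : ℤ) : ℂ :=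
  if k = m ∨ k = -m then (c : ℂ) else 0

/-- the period `1 / (2 π m ^ 2)` of the free evolution of `cos(2πmx)` -/
noncomputable def per (m : ℕ) : ℝ := 2 * Real.pi / (2 * Real.pi * m) ^ 2

/-! ### reversal of time -/

theorem reverse {ν T : ℝ} {a₀ : ℤ → ℂ} (h0 : ∀ k, (starRingEnd ℂ) (a₀ (-k)) = a₀ k)
    (h : Survives ν (Icc (-T) 0) a₀) : Survives ν (Icc 0 T) a₀ := by
  obtain ⟨a, ha0, ⟨hs, hd⟩, K, hK⟩ := h
  set b : ℝ → ℤ → ℂ := fun t k => (starRingEnd ℂ) (a (-t) (-k)) with hb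
  have hmem : ∀ t ∈ Icc 0 T, -t ∈ Icc (-T) 0 := by
    intro t ht
    exact ⟨by linarith [ht.2], by linarith [ht.1]⟩
  have hterm : ∀ (μ t : ℝ) (k : ℤ), ‖b t k‖ * μ ^ k.natAbs =
      (fun k : ℤ => ‖a (-t) k‖ * μ ^ k.natAbs) ((Equiv.neg ℤ) k) := by
    intro μ t k
    simp only [hb, Equiv.neg_apply, Int.natAbs_neg, RCLike.norm_conj]
  have hin : ∀ (μ t : ℝ), InA μ (a (-t)) → InA μ (b t) := by
    intro μ t h
    unfold InA
    simp only [hterm]
    exact (Equiv.summable_iff (Equiv.neg ℤ)).2 h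
  have hno : ∀ (μ t : ℝ), normA μ (b t) = normA μ (a (-t)) := by
    intro μ t
    unfold normA
    simp only [hterm]
    exact Equiv.tsum_eq (Equiv.neg ℤ) (fun k : ℤ => ‖a (-t) k‖ * μ ^ k.natAbs)
  have hsq : ∀ (t : ℝ) (k : ℤ), (starRingEnd ℂ) (sq (a (-t)) (-k)) = sq (b t) k := by
    intro t k
    unfold sq
    rw [Complex.conj_tsum, ← Equiv.tsum_eq (Equiv.neg ℤ)]
    refine tsum_congr fun j => ?_
    simp only [hb, Equiv.neg_apply, map_mul]
    congr 3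
    ring
  refine ⟨b, ?_, ⟨fun t ht => hin 1 t (hs _ (hmem t ht)), ?_⟩, K, fun t ht =>
    ⟨hin ν t (hK _ (hmem t ht)).1, by rw [hno]; exact (hK _ (hmem t ht)).2⟩⟩
  · funext k
    simp only [hb, neg_zero, ha0, h0]
  · intro t ht k
    have h1 := hd (-t) (hmem t ht) (-k)
    have h2 : HasDerivWithinAt (fun s : ℝ => -s) (-1) (Icc 0 T) t :=
      (hasDerivWithinAt_id t _).neg
    have h3 := h1.scomp t h2 (fun s hs => hmem s hs)
    have h4 : HasDerivWithinAt (fun s : ℝ => (starRingEnd ℂ) (a (-s) (-k)))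
        ((starRingEnd ℂ) ((-1 : ℝ) • (Complex.I * (-((2 * Real.pi * ((-k : ℤ) : ℂ)) ^ 2) *
          a (-t) (-k) + sq (a (-t)) (-k))))) (Icc 0 T) t :=
      (Complex.conjCLE.toContinuousLinearMap.hasFDerivAt.comp_hasDerivWithinAt t h3)
    refine h4.congr_deriv ?_
    rw [← hsq t k]
    simp only [hb, map_mul, map_add, map_neg, Complex.conj_I, map_pow, Complex.conj_ofReal,
      Complex.real_smul, Complex.ofReal_neg, Complex.ofReal_one, map_one]
    push_cast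
    have e1 : (starRingEnd ℂ) (2 : ℂ) = 2 := by
      exact Complex.conj_ofReal 2
    have e2 : (starRingEnd ℂ) (k : ℂ) = k := by
      have := Complex.conj_ofReal (k : ℝ)
      push_cast at this
      exact this
    rw [e1, map_neg, e2]
    ring

theorem cosDatum_symm (m : ℕ) (c : ℝ) (k : ℤ) :
    (starRingEnd ℂ) (cosDatum m c (-k)) = cosDatum m c k := by
  unfold cosDatum
  by_cases h : k = m ∨ k = -m
  · have h' : -k = m ∨ -k = -m := by omega
    rw [if_pos h, if_pos h', Complex.conj_ofReal]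
  · have h' : ¬ (-k = m ∨ -k = -m) := by omega
    rw [if_neg h, if_neg h', map_zero]

/-! ### the measure of the surviving amplitudes -/

theorem survive_bd {ν : ℝ} (hν : 1 < ν) {m : ℕ} {c : ℝ}
    (h : Survives ν (Icc 0 (per m)) (cosDatum m c)) : ∃ a : ℝ → ℤ → ℂ,
      (∀ k : ℤ, ∀ t ∈ Icc 0 (2 * Real.pi / (2 * Real.pi * m) ^ 2),
        HasDerivWithinAt (fun s => a s k)
          (Complex.I * (-((4 * Real.pi ^ 2 * (k : ℝ) ^ 2 : ℝ) : ℂ) * a t k + conv (a t) (a t) k))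
            (Icc 0 (2 * Real.pi / (2 * Real.pi * m) ^ 2)) t) ∧
      (∀ k : ℤ, a 0 k = if k = m ∨ k = -m then (c : ℂ) else 0) ∧
      ∃ K : ℝ, ∀ t ∈ Icc 0 (2 * Real.pi / (2 * Real.pi * m) ^ 2),
        Bd (fun k => a t k * ν ^ k.natAbs) K := by
  obtain ⟨a, h0, ⟨-, hsol⟩, K, hK⟩ := h
  refine ⟨a, ?_, ?_, K, ?_⟩
  · intro k t ht
    refine (hsol t ht k).congr_deriv ?_
    have e : conv (a t) (a t) k = sq (a t) k := rfl
    rw [e]
    push_cast
    ring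
  · intro k
    rw [h0]
    rfl
  · intro t ht F
    have h1 := (hK t ht).1.sum_le_tsum F (fun k _ => by positivity)
    refine le_trans (le_of_eq ?_) (h1.trans (hK t ht).2)
    refine Finset.sum_congr rfl fun k _ => ?_
    rw [norm_mul, norm_pow, Complex.norm_real, Real.norm_of_nonneg (by linarith)]

theorem part {ν : ℝ} (hν : 1 < ν) {N : ℕ} (hN : 1 ≤ N) {m : ℕ} (hm : 1 ≤ m) {b : ℝ}
    (hb1 : 2 * (336 * N / ν ^ m) ^ 2 ≤ b) (hb2 : b ≤ 1 / (10 ^ 6 * N)) :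
    volume {p : ℝ | p ∈ Icc (b / 2) b ∧
      (Survives ν (Icc 0 (per m)) (cosDatum m ((2 * Real.pi * m) ^ 2 * √p)) ∨
        Survives ν (Icc (-per m) 0) (cosDatum m ((2 * Real.pi * m) ^ 2 * √p)))} ≤
      ENNReal.ofReal (b / (4 * N)) := by
  have hνm : 0 < ν ^ m := by positivity
  have hN0 : (0 : ℝ) < N := by exact_mod_cast hN
  have hb : 0 < b := lt_of_lt_of_le (by positivity) hb1
  have hpi := Real.pi_gt_three
  have hpi2 : Real.pi < 3.15 := Real.pi_lt_d2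
  have hNb : N * b ≤ 1 / 10 ^ 6 := by
    rw [le_div_iff₀ (by positivity)] at hb2 ⊢
    linarith
  have hbs : 48 * N * (4 * Real.pi) * (16 * Real.pi ^ 2 * b) ≤ 1 / 10 := by
    have hp3 : Real.pi ^ 3 ≤ 32 := by
      have : Real.pi ^ 3 ≤ 3.15 ^ 3 := pow_le_pow_left₀ Real.pi_pos.le hpi2.le 3
      nlinarith
    have e : 48 * N * (4 * Real.pi) * (16 * Real.pi ^ 2 * b) = 3072 * (Real.pi ^ 3 * (N * b)) := by
      ring
    rw [e]
    have h5 : Real.pi ^ 3 * (N * b) ≤ 32 * (1 / 10 ^ 6) :=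
      mul_le_mul hp3 hNb (by positivity) (by norm_num)
    linarith
  have hL : 336 * N ≤ √(b / 2) * ν ^ m := by
    have h1 : 336 * N / ν ^ m ≤ √(b / 2) := by
      apply Real.le_sqrt_of_sq_le
      linarith
    have h2 := mul_le_mul_of_nonneg_right h1 hνm.le
    rwa [div_mul_cancel₀ _ hνm.ne'] at h2
  refine le_trans (measure_mono ?_) (orig_measure hN hν hm hb hbs hL)
  rintro p ⟨hp, h⟩
  refine ⟨hp, ?_⟩
  rcases h with h | h
  · exact survive_bd hν h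
  · exact survive_bd hν (reverse (cosDatum_symm m _) h)

/-- the datum `2 c cos(2πmx)` survives in one of the two directions of time -/
def Surv (ν : ℝ) (m : ℕ) (c : ℝ) : Prop :=
  Survives ν (Icc 0 (per m)) (cosDatum m c) ∨ Survives ν (Icc (-per m) 0) (cosDatum m c)

theorem surv_mono {ν ν' : ℝ} (h1 : 1 ≤ ν') (h : ν' ≤ ν) {m : ℕ} {c : ℝ} (hs : Surv ν m c) :
    Surv ν' m c := by
  have key : ∀ I : Set ℝ, Survives ν I (cosDatum m c) → Survives ν' I (cosDatum m c) := by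
    rintro I ⟨a, h0, hsol, K, hK⟩
    refine ⟨a, h0, hsol, K, fun t ht => ?_⟩
    obtain ⟨h2, h3⟩ := hK t ht
    have hle : ∀ k : ℤ, ‖a t k‖ * ν' ^ k.natAbs ≤ ‖a t k‖ * ν ^ k.natAbs := fun k =>
      mul_le_mul_of_nonneg_left (pow_le_pow_left₀ (by linarith) h _) (norm_nonneg _)
    have h4 : InA ν' (a t) := Summable.of_nonneg_of_le (fun k => by positivity) hle h2
    exact ⟨h4, (h4.tsum_le_tsum hle h2).trans h3⟩
  exact hs.imp (key _) (key _)

theorem scaled {ν : ℝ} (hν : 1 < ν) {N : ℕ} (hN : 1 ≤ N) {m : ℕ} (hm : 1 ≤ m) {β : ℝ}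
    (hb1 : 2 * (336 * N / ν ^ m) ^ 2 ≤ β / (2 * Real.pi * m) ^ 4)
    (hb2 : β / (2 * Real.pi * m) ^ 4 ≤ 1 / (10 ^ 6 * N)) :
    volume {q : ℝ | q ∈ Icc (β / 2) β ∧ Surv ν m (√q)} ≤ ENNReal.ofReal (β / (4 * N)) := by
  have hm0 : (0 : ℝ) < m := by exact_mod_cast hm
  have hpi := Real.pi_pos
  set V : ℝ := (2 * Real.pi * m) ^ 4 with hV
  have hV0 : 0 < V := by positivity
  have hp := part hν hN hm hb1 hb2
  set A : Set ℝ := {p : ℝ | p ∈ Icc (β / V / 2) (β / V) ∧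
      (Survives ν (Icc 0 (per m)) (cosDatum m ((2 * Real.pi * m) ^ 2 * √p)) ∨
        Survives ν (Icc (-per m) 0) (cosDatum m ((2 * Real.pi * m) ^ 2 * √p)))} with hA
  have hsub : {q : ℝ | q ∈ Icc (β / 2) β ∧ Surv ν m (√q)} ⊆ (fun q => V⁻¹ * q) ⁻¹' A := by
    rintro q ⟨hq, hs⟩
    have e : (2 * Real.pi * m) ^ 2 * √(V⁻¹ * q) = √q := by
      rw [Real.sqrt_mul (by positivity), Real.sqrt_inv]
      have : √V = (2 * Real.pi * m) ^ 2 := by
        rw [hV, show (2 * Real.pi * (m : ℝ)) ^ 4 = ((2 * Real.pi * m) ^ 2) ^ 2 by ring,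
          Real.sqrt_sq (by positivity)]
      rw [this]
      have h2 : (2 * Real.pi * (m : ℝ)) ^ 2 ≠ 0 := by positivity
      field_simp
    refine ⟨⟨?_, ?_⟩, ?_⟩
    · show β / V / 2 ≤ V⁻¹ * q
      have := mul_le_mul_of_nonneg_left hq.1 (inv_nonneg.2 hV0.le)
      refine le_trans (le_of_eq ?_) this
      field_simp
    · show V⁻¹ * q ≤ β / V
      have := mul_le_mul_of_nonneg_left hq.2 (inv_nonneg.2 hV0.le)
      refine this.trans (le_of_eq ?_)
      field_simp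
    · show Survives ν _ (cosDatum m ((2 * Real.pi * m) ^ 2 * √(V⁻¹ * q))) ∨
        Survives ν _ (cosDatum m ((2 * Real.pi * m) ^ 2 * √(V⁻¹ * q)))
      rw [e]
      exact hs
  refine (measure_mono hsub).trans ?_
  rw [Real.volume_preimage_mul_left (inv_ne_zero hV0.ne'), inv_inv, abs_of_pos hV0]
  calc ENNReal.ofReal V * volume A ≤ ENNReal.ofReal V * ENNReal.ofReal (β / V / (4 * N)) := by
        gcongr
    _ = ENNReal.ofReal (β / (4 * N)) := by
        rw [← ENNReal.ofReal_mul hV0.le]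
        congr 1
        field_simp

theorem eventually_cond {ν : ℝ} (hν : 1 < ν) {β : ℝ} (hβ : 0 < β) : ∃ M : ℕ, ∀ m : ℕ, M ≤ m →
    1 ≤ m ∧ 2 * (336 * (m ^ 2 : ℕ) / ν ^ m) ^ 2 ≤ β / (2 * Real.pi * m) ^ 4 ∧
    β / (2 * Real.pi * m) ^ 4 ≤ 1 / (10 ^ 6 * (m ^ 2 : ℕ)) := by
  have hlim := tendsto_pow_const_div_const_pow_of_one_lt 4 hν
  have hpi := Real.pi_pos
  set γ : ℝ := √(β / 2) / (336 * (2 * Real.pi) ^ 2) with hγ
  have hγ0 : 0 < γ := by positivity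
  have h1 : ∀ᶠ n : ℕ in atTop, (n : ℝ) ^ 4 / ν ^ n < γ := hlim.eventually_lt_const hγ0
  have h2 : ∀ᶠ n : ℕ in atTop, 10 ^ 6 * β ≤ (n : ℝ) ^ 2 := by
    have h3 : Tendsto (fun n : ℕ => (n : ℝ) ^ 2) atTop atTop :=
      (tendsto_pow_atTop two_ne_zero).comp tendsto_natCast_atTop_atTop
    exact h3.eventually_ge_atTop _
  obtain ⟨M, hM⟩ := eventually_atTop.1 (h1.and (h2.and (eventually_ge_atTop 1)))
  refine ⟨M, fun m hmM => ?_⟩
  obtain ⟨h3, h4, h5⟩ := hM m hmM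
  have hm0 : (0 : ℝ) < m := by exact_mod_cast h5
  have hνm : 0 < ν ^ m := by positivity
  refine ⟨h5, ?_, ?_⟩
  · have e : 2 * (336 * ((m ^ 2 : ℕ) : ℝ) / ν ^ m) ^ 2 =
        2 * (336 * (2 * Real.pi) ^ 2 * ((m : ℝ) ^ 4 / ν ^ m)) ^ 2 / (2 * Real.pi * m) ^ 4 := by
      push_cast
      field_simp
    rw [e]
    refine div_le_div_of_nonneg_right ?_ (by positivity)
    have h6 : 336 * (2 * Real.pi) ^ 2 * ((m : ℝ) ^ 4 / ν ^ m) ≤ √(β / 2) := by
      have h7 := mul_le_mul_of_nonneg_left h3.le (show 0 ≤ 336 * (2 * Real.pi) ^ 2 by positivity)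
      refine h7.trans (le_of_eq ?_)
      rw [hγ]
      field_simp
    have h8 := pow_le_pow_left₀ (by positivity) h6 2
    rw [Real.sq_sqrt (by positivity)] at h8
    linarith
  · rw [div_le_div_iff₀ (by positivity) (by positivity)]
    push_cast
    have hpi3 := Real.pi_gt_three
    have h6 : (1 : ℝ) ≤ (2 * Real.pi) ^ 4 := one_le_pow₀ (by linarith)
    have h7 : (2 * Real.pi * (m : ℝ)) ^ 4 = (2 * Real.pi) ^ 4 * ((m : ℝ) ^ 2 * (m : ℝ) ^ 2) := by
      ring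
    rw [h7]
    have h8 : 0 < (m : ℝ) ^ 2 := by positivity
    calc β * (10 ^ 6 * (m : ℝ) ^ 2) = (10 ^ 6 * β) * (m : ℝ) ^ 2 := by ring
      _ ≤ (m : ℝ) ^ 2 * (m : ℝ) ^ 2 := mul_le_mul_of_nonneg_right h4 h8.le
      _ ≤ 1 * ((2 * Real.pi) ^ 4 * ((m : ℝ) ^ 2 * (m : ℝ) ^ 2)) := by
          rw [one_mul]
          exact le_mul_of_one_le_left (by positivity) h6

theorem ae_block {ν : ℝ} (hν : 1 < ν) {β : ℝ} (hβ : 0 < β) :
    ∀ᵐ q : ℝ, q ∈ Icc (β / 2) β → ∀ᶠ m : ℕ in atTop, ¬ Surv ν m (√q) := by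
  obtain ⟨M, hM⟩ := eventually_cond hν hβ
  set s : ℕ → Set ℝ := fun k => {q : ℝ | q ∈ Icc (β / 2) β ∧ Surv ν (k + (M + 1)) (√q)} with hs
  have hle : ∀ k, volume (s k) ≤ ENNReal.ofReal (β / 4 * (1 / ((k + (M + 1) : ℕ) : ℝ) ^ 2)) := by
    intro k
    obtain ⟨h1, h2, h3⟩ := hM (k + (M + 1)) (by omega)
    refine (scaled hν (N := (k + (M + 1)) ^ 2) (Nat.one_le_pow _ _ (by omega)) h1 h2 h3).trans
      (le_of_eq ?_)
    congr 1
    push_cast
    field_simp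
  have hsum : Summable (fun k : ℕ => β / 4 * (1 / ((k + (M + 1) : ℕ) : ℝ) ^ 2)) := by
    refine Summable.mul_left _ ?_
    have := (summable_nat_add_iff (f := fun k : ℕ => 1 / (k : ℝ) ^ 2) (M + 1)).2
      (Real.summable_one_div_nat_pow.2 (by norm_num))
    exact this
  have hfin : ∑' k, volume (s k) ≠ ⊤ := by
    refine ne_top_of_le_ne_top hsum.tsum_ofReal_ne_top (ENNReal.tsum_le_tsum hle)
  filter_upwards [ae_eventually_notMem hfin] with q hq hqm
  obtain ⟨k0, hk0⟩ := eventually_atTop.1 hq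
  refine eventually_atTop.2 ⟨k0 + (M + 1), fun m hm hS => ?_⟩
  have h1 := hk0 (m - (M + 1)) (by omega)
  apply h1
  refine ⟨hqm, ?_⟩
  have e : m - (M + 1) + (M + 1) = m := by omega
  rw [e]
  exact hS

theorem ae_square : ∀ᵐ q : ℝ, 0 < q → ∀ ν : ℝ, 1 < ν → ∀ᶠ m : ℕ in atTop, ¬ Surv ν m (√q) := by
  have h : ∀ᵐ q : ℝ, ∀ i : ℕ, ∀ j : ℤ, q ∈ Icc ((2 : ℝ) ^ j / 2) ((2 : ℝ) ^ j) →
      ∀ᶠ m : ℕ in atTop, ¬ Surv (1 + 1 / ((i : ℝ) + 1)) m (√q) := by
    rw [ae_all_iff]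
    intro i
    rw [ae_all_iff]
    intro j
    refine ae_block ?_ (by positivity)
    have : 0 < 1 / ((i : ℝ) + 1) := by positivity
    linarith
  filter_upwards [h] with q hq hq0 ν hν
  obtain ⟨j, hj⟩ := exists_mem_Ioc_zpow hq0 (show (1 : ℝ) < 2 by norm_num)
  obtain ⟨i, hi⟩ := exists_nat_one_div_lt (show 0 < ν - 1 by linarith)
  have h1 := hq i (j + 1) ⟨by
    rw [zpow_add₀ two_ne_zero, zpow_one, mul_div_assoc, div_self two_ne_zero, mul_one]
    exact hj.1.le, hj.2⟩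
  filter_upwards [h1] with m hm hS
  refine hm (surv_mono ?_ ?_ hS)
  · have : 0 < 1 / ((i : ℝ) + 1) := by positivity
    linarith
  · linarith

theorem ae_amplitude : ∀ᵐ c : ℝ, 0 < c → ∀ ν : ℝ, 1 < ν → ∀ᶠ m : ℕ in atTop, ¬ Surv ν m c := by
  set Z : Set ℝ := {q : ℝ | ¬ (0 < q → ∀ ν : ℝ, 1 < ν → ∀ᶠ m : ℕ in atTop, ¬ Surv ν m (√q))}
    with hZ
  have hZ0 : volume Z = 0 := ae_iff.1 ae_square
  have hpos : ∀ q ∈ Z, 0 < q := by
    intro q hq
    by_contra h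
    exact hq (fun h' => absurd h' h)
  have himg : volume ((fun q : ℝ => √q) '' Z) = 0 := by
    refine addHaar_image_eq_zero_of_differentiableOn_of_addHaar_eq_zero volume ?_ hZ0
    intro q hq
    exact (Real.hasDerivAt_sqrt (hpos q hq).ne').differentiableAt.differentiableWithinAt
  rw [ae_iff]
  refine measure_mono_null ?_ himg
  intro c hc
  have hc' : ¬ (0 < c → ∀ ν : ℝ, 1 < ν → ∀ᶠ m : ℕ in atTop, ¬ Surv ν m c) := hc
  have hc0 : 0 < c := by
    by_contra h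
    exact hc' (fun h' => absurd h' h)
  have e : √(c ^ 2) = c := Real.sqrt_sq hc0.le
  refine ⟨c ^ 2, ?_, e⟩
  show ¬ (0 < c ^ 2 → ∀ ν : ℝ, 1 < ν → ∀ᶠ m : ℕ in atTop, ¬ Surv ν m (√(c ^ 2)))
  rw [e]
  intro h
  exact hc' (fun _ => h (by positivity))

theorem per_tendsto : Tendsto per atTop (𝓝 0) := by
  have h1 : ∀ m : ℕ, per m = 1 / (2 * Real.pi) * (1 / (m : ℝ)) ^ 2 := by
    intro m
    unfold per
    by_cases hm : m = 0
    · subst hm; simp
    · have : (m : ℝ) ≠ 0 := by exact_mod_cast hm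
      have hpi := Real.pi_ne_zero
      field_simp
  have h2 : Tendsto (fun m : ℕ => 1 / (2 * Real.pi) * (1 / (m : ℝ)) ^ 2) atTop (𝓝 0) := by
    have := ((tendsto_one_div_atTop_nhds_zero_nat (𝕜 := ℝ)).pow 2).const_mul (1 / (2 * Real.pi))
    simpa using this
  exact h2.congr fun m => (h1 m).symm

/-- For almost every amplitude `c > 0` the real data `2 c cos(2πmx)` leave `A_ν`, for every
`ν > 1` and all sufficiently large `m`, within the time `1 / (2πm²)`, in both directions of time.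
(Small amplitudes and short times are included.) The last clause but one is the quantitative
form. -/
theorem result :
    (∀ᵐ c : ℝ, 0 < c → ∀ ν : ℝ, 1 < ν → ∀ᶠ m : ℕ in atTop,
      ¬ Survives ν (Icc 0 (per m)) (cosDatum m c) ∧
      ¬ Survives ν (Icc (-per m) 0) (cosDatum m c)) ∧
    Tendsto per atTop (𝓝 0) ∧
    (∀ ν : ℝ, 1 < ν → ∀ N : ℕ, 1 ≤ N → ∀ m : ℕ, 1 ≤ m → ∀ b : ℝ,
      2 * (336 * N / ν ^ m) ^ 2 ≤ b → b ≤ 1 / (10 ^ 6 * N) →
      volume {p : ℝ | p ∈ Icc (b / 2) b ∧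
        (Survives ν (Icc 0 (per m)) (cosDatum m ((2 * Real.pi * m) ^ 2 * √p)) ∨
          Survives ν (Icc (-per m) 0) (cosDatum m ((2 * Real.pi * m) ^ 2 * √p)))} ≤
        volume (Icc (b / 2) b) / (2 * N)) ∧
    ∀ m : ℕ, 1 ≤ m → ∀ c x : ℝ,
      ∑' k : ℤ, cosDatum m c k * Complex.exp (2 * Real.pi * Complex.I * k * x) =
        ((2 * c * Real.cos (2 * Real.pi * m * x) : ℝ) : ℂ) := by
  refine ⟨?_, per_tendsto, ?_, ?_⟩
  · filter_upwards [ae_amplitude] with c hc hc0 ν hν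
    filter_upwards [hc hc0 ν hν] with m hm
    exact ⟨fun h => hm (Or.inl h), fun h => hm (Or.inr h)⟩
  · intro ν hν N hN m hm b hb1 hb2
    have hνm : 0 < ν ^ m := by positivity
    have hN0 : (0 : ℝ) < N := by exact_mod_cast hN
    have hb : 0 < b := lt_of_lt_of_le (by positivity) hb1
    refine (part hν hN hm hb1 hb2).trans (le_of_eq ?_)
    have e2 : (2 * (N : ENNReal)) = ENNReal.ofReal (2 * N) := by
      rw [ENNReal.ofReal_mul (by norm_num), ENNReal.ofReal_natCast, ENNReal.ofReal_ofNat]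
    rw [Real.volume_Icc, e2, ← ENNReal.ofReal_div_of_pos (by positivity)]
    congr 1
    field_simp
    ring
  · intro m hm c x
    have hne : (m : ℤ) ≠ -m := by omega
    rw [tsum_eq_sum (s := {(m : ℤ), -(m : ℤ)}) (by
      intro k hk
      have hk' : ¬ (k = m ∨ k = -m) := by simpa using hk
      rw [cosDatum, if_neg hk', zero_mul])]
    rw [Finset.sum_pair hne]
    have d1 : cosDatum m c (m : ℤ) = (c : ℂ) := if_pos (Or.inl rfl)
    have d2 : cosDatum m c (-(m : ℤ)) = (c : ℂ) := if_pos (Or.inr rfl)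
    rw [d1, d2]
    push_cast
    rw [Complex.cos]
    have e1 : Complex.exp (2 * Real.pi * Complex.I * m * x) =
        Complex.exp (2 * Real.pi * m * x * Complex.I) := by congr 1; ring
    have e2 : Complex.exp (2 * Real.pi * Complex.I * -m * x) =
        Complex.exp (-(2 * Real.pi * m * x) * Complex.I) := by congr 1; ring
    rw [e1, e2]
    ring

end Pool.Agent.Results.MP_12ab79_an.AlmostEveryAmplitude
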